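import Pool.Agent.Y697.MQ.Kum
import Pool.Agent.W164.RC.Split
import Pool.Agent.H82R3.EK.Fiber
import Pool.Agent.Y19.QT.DefsK

/-! Splitting of primes in multiquadratic extensions of `ℚ`
(adapted from `Pool.Agent.Y697.MQ.Gal2`, helper697). -/

set_option autoImplicit false

open NumberField IsDedekindDomain

namespace Pool.Agent.Y73.QMQ1

open Pool.Agent.Y19.QT (Indep)
open Pool.Agent.Y697.MQ (kummer_card)
open Pool.Agent.W164.RC (split_abs)
open Pool.Agent.H921R2.TatePole
open Pool.Agent.H82R3.EK (liesOver_of_mem below_eq_of_mem card_fiber)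

open Classical in
/-- the residue degree -/
noncomputable def fd {n : ℕ} (d : Fin n → ℤ) (p : ℕ) : ℕ :=
  if ∀ i, jacobiSym (d i) p = 1 then 1 else 2

variable {K : Type} [Field K] [NumberField K] {n : ℕ} {d : Fin n → ℤ} {x : Fin n → K}

theorem gal_of (hx : ∀ i, x i ^ 2 = (d i : K))
    (hK : IntermediateField.adjoin ℚ (Set.range x) = ⊤) : IsGalois ℚ K := by
  classical
  set p : Polynomial ℚ := ∏ i, (Polynomial.X ^ 2 - Polynomial.C ((d i : ℚ))) with hp
  have hfac : ∀ i, Polynomial.map (algebraMap ℚ K)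
      (Polynomial.X ^ 2 - Polynomial.C ((d i : ℚ))) =
      (Polynomial.X - Polynomial.C (x i)) * (Polynomial.X - Polynomial.C (-x i)) := by
    intro i
    rw [Polynomial.map_sub, Polynomial.map_pow, Polynomial.map_X, Polynomial.map_C, map_intCast,
      ← hx i, Polynomial.C_neg, Polynomial.C_pow]
    ring
  have hp0 : p ≠ 0 := Finset.prod_ne_zero_iff.2 fun i _ => Polynomial.X_pow_sub_C_ne_zero
    (by norm_num) _
  have : Polynomial.IsSplittingField ℚ K p := by
    rw [isSplittingField_iff_intermediateField]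
    constructor
    · rw [hp, Polynomial.map_prod]
      apply Polynomial.Splits.prod
      intro i _
      rw [hfac i]
      exact (Polynomial.Splits.X_sub_C _).mul (Polynomial.Splits.X_sub_C _)
    · rw [eq_top_iff, ← hK, IntermediateField.adjoin_le_iff]
      rintro _ ⟨i, rfl⟩
      apply IntermediateField.subset_adjoin
      rw [Polynomial.mem_rootSet]
      refine ⟨hp0, ?_⟩
      rw [hp, map_prod]
      apply Finset.prod_eq_zero (Finset.mem_univ i)
      rw [map_sub, map_pow, Polynomial.aeval_X, Polynomial.aeval_C, map_intCast, hx i, sub_self]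
  have : Normal ℚ K := Normal.of_isSplittingField p
  have : Algebra.IsSeparable ℚ K := Algebra.IsAlgebraic.isSeparable_of_perfectField
  exact ⟨⟩

theorem gal_inj (hK : IntermediateField.adjoin ℚ (Set.range x) = ⊤) (σ : K ≃ₐ[ℚ] K)
    (hσ : ∀ i, σ (x i) = x i) : σ = 1 := by
  let E : IntermediateField ℚ K :=
    (RingHom.eqLocusField (σ : K →+* K) (RingHom.id K)).toIntermediateField
      (fun q => σ.commutes q)
  have h : (⊤ : IntermediateField ℚ K) ≤ E := by
    rw [← hK, IntermediateField.adjoin_le_iff]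
    rintro _ ⟨i, rfl⟩
    exact hσ i
  ext y
  exact h (IntermediateField.mem_top (x := y))

omit [NumberField K] in
theorem not_mem_both {p a : ℤ} (h : IsCoprime p a) {I : Ideal (𝓞 K)} (hI : I ≠ ⊤)
    (hp : ((p : ℤ) : 𝓞 K) ∈ I) (ha : ((a : ℤ) : 𝓞 K) ∈ I) : False := by
  obtain ⟨u, v, huv⟩ := h
  apply hI
  rw [Ideal.eq_top_iff_one]
  have h1 := I.add_mem (I.mul_mem_left (u : 𝓞 K) hp) (I.mul_mem_left (v : 𝓞 K) ha)
  have h2 := congrArg (fun z : ℤ => (z : 𝓞 K)) huv
  push_cast at h2
  rwa [h2] at h1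

theorem d_ne_zero (hd : Indep d) (i : Fin n) : d i ≠ 0 := by
  intro h
  apply hd {i} (Finset.singleton_nonempty i)
  rw [Finset.prod_singleton, h]
  exact ⟨0, by ring⟩

theorem card_gal (hd : Indep d) (hx : ∀ i, x i ^ 2 = (d i : K))
    (hK : IntermediateField.adjoin ℚ (Set.range x) = ⊤) : Nat.card (K ≃ₐ[ℚ] K) = 2 ^ n := by
  classical
  have := gal_of hx hK
  have h1 := kummer_card (k := ℚ) (K := K) (I := Fin n) x (fun i => (d i : ℚ))
    (fun i => Int.cast_ne_zero.2 (d_ne_zero hd i)) (fun i => by rw [hx i, map_intCast]) two_ne_zero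
    (by
      intro J hJ h2
      apply hd J hJ
      have h3 : (∏ i ∈ J, (d i : ℚ)) = ((∏ i ∈ J, d i : ℤ) : ℚ) := by push_cast; rfl
      rw [h3] at h2
      exact Rat.isSquare_intCast_iff.1 h2) (fun σ hσ => gal_inj hK σ hσ)
  rw [h1, Fintype.card_fin]

theorem split_loc (hd : Indep d) (hx : ∀ i, x i ^ 2 = (d i : K))
    (hK : IntermediateField.adjoin ℚ (Set.range x) = ⊤) (p : Nat.Primes) (hp2 : (p : ℕ) ≠ 2)
    (hpd : ∀ i, ¬ (((p : ℕ) : ℤ) ∣ d i)) :
    (∀ v : HeightOneSpectrum (𝓞 K), below v = p → deg v = fd d p) ∧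
      Fintype.card {v : HeightOneSpectrum (𝓞 K) // below v = p} * fd d p = 2 ^ n := by
  classical
  have hgal := gal_of hx hK
  have hpf : Fact (p : ℕ).Prime := ⟨p.2⟩
  have hint : ∀ i, IsIntegral ℤ (x i) := fun i => by
    refine IsIntegral.of_pow (n := 2) (by norm_num) ?_
    rw [hx i]
    exact isIntegral_algebraMap (R := ℤ) (x := d i)
  let r : Fin n → 𝓞 K := fun i => ⟨x i, hint i⟩
  have hr : ∀ i, r i ^ 2 = (d i : 𝓞 K) := by
    intro i
    apply RingOfIntegers.ext
    change algebraMap (𝓞 K) K (r i ^ 2) = algebraMap (𝓞 K) K (d i : 𝓞 K)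
    rw [map_pow, map_intCast]
    exact hx i
  have hσι : ∀ (σ : K ≃ₐ[ℚ] K) (a : ℤ), σ • (a : 𝓞 K) = (a : 𝓞 K) := by
    intro σ a
    apply RingOfIntegers.ext
    change σ (((a : ℤ) : 𝓞 K) : K) = _
    push_cast
    exact map_intCast σ a
  have hinv : Algebra.IsInvariant ℤ (𝓞 K) (K ≃ₐ[ℚ] K) := by
    constructor
    intro b hb
    obtain ⟨y, hy⟩ := (IsGalois.mem_range_algebraMap_iff_fixed (F := ℚ) (b : K)).2 (fun σ =>
      congrArg (fun z : 𝓞 K => (z : K)) (hb σ))
    have h1 : IsIntegral ℤ y := by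
      have h2 : IsIntegral ℤ (algebraMap ℚ K y) := by rw [hy]; exact b.2
      exact (isIntegral_algHom_iff ((algebraMap ℚ K).toIntAlgHom) (algebraMap ℚ K).injective).1 h2
    obtain ⟨g, hg⟩ := IsIntegrallyClosed.isIntegral_iff.1 h1
    refine ⟨g, ?_⟩
    apply RingOfIntegers.ext
    rw [← hy, ← hg]
    simp
  have hmax : (Ideal.span {((p : ℕ) : ℤ)}).IsMaximal := Int.ideal_span_isMaximal_of_prime p
  have hcardz : Nat.card (ℤ ⧸ Ideal.span {((p : ℕ) : ℤ)}) = p := by
    rw [Nat.card_congr (Int.quotientSpanNatEquivZMod (p : ℕ)).toEquiv, Nat.card_zmod]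
  have hfz : Finite (ℤ ⧸ Ideal.span {((p : ℕ) : ℤ)}) := by
    apply Nat.finite_of_card_ne_zero
    rw [hcardz]
    exact p.2.ne_zero
  have hcopd : ∀ i, IsCoprime ((p : ℕ) : ℤ) (4 * d i) := fun i =>
    ((Nat.prime_iff_prime_int.1 p.2).irreducible.coprime_iff_not_dvd).2 fun h1 => by
      rcases (Nat.prime_iff_prime_int.1 p.2).dvd_or_dvd h1 with h2 | h2
      · apply hp2
        have h3 : (p : ℕ) ∣ 2 ^ 2 := by exact_mod_cast h2
        exact (Nat.prime_dvd_prime_iff_eq p.2 Nat.prime_two).1 (p.2.dvd_of_dvd_pow h3)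
      · exact hpd i h2
  have hcard := card_gal hd hx hK
  have hjac : ∀ i, jacobiSym (d i) p = 1 ∨ jacobiSym (d i) p = -1 := by
    intro i
    rw [← jacobiSym.legendreSym.to_jacobiSym]
    apply legendreSym.eq_one_or_neg_one
    rw [Ne, ZMod.intCast_zmod_eq_zero_iff_dvd]
    exact hpd i
  have hpow : ∀ i, ((p : ℕ) : ℤ) ∣ d i ^ ((p : ℕ) / 2) - jacobiSym (d i) p := by
    intro i
    rw [← jacobiSym.legendreSym.to_jacobiSym, ← ZMod.intCast_zmod_eq_zero_iff_dvd]
    push_cast
    rw [legendreSym.eq_pow, sub_self]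
  -- one place
  have key : ∀ v : HeightOneSpectrum (𝓞 K), (((p : ℕ) : ℤ) : 𝓞 K) ∈ v.asIdeal →
      Ideal.absNorm v.asIdeal = (p : ℕ) ^ fd d p ∧
      ((Ideal.span {((p : ℕ) : ℤ)} : Ideal ℤ).primesOver (𝓞 K)).ncard * fd d p = 2 ^ n := by
    intro v hv
    have hvpr := v.isPrime
    have hvmax : v.asIdeal.IsMaximal := v.isPrime.isMaximal v.ne_bot
    have hfv : Finite (𝓞 K ⧸ v.asIdeal) := Ideal.finiteQuotientOfFreeOfNeBot v.asIdeal v.ne_bot
    have hover : v.asIdeal.LiesOver (Ideal.span {((p : ℕ) : ℤ)}) :=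
      liesOver_of_mem K p.2 v (by simpa using hv)
    -- signs are determined modulo `v`
    have h2r : ∀ i, 2 * r i ∉ v.asIdeal := by
      intro i h1
      have h3 : (2 * r i) * (2 * r i) ∈ v.asIdeal := v.asIdeal.mul_mem_left _ h1
      have h4 : (2 * r i) * (2 * r i) = ((4 * d i : ℤ) : 𝓞 K) := by
        push_cast
        rw [← hr i]; ring
      rw [h4] at h3
      exact not_mem_both (hcopd i) hvmax.ne_top hv h3
    have hsign : ∀ σ : K ≃ₐ[ℚ] K, ∀ i, σ • r i = r i ∨ σ • r i = - r i := by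
      intro σ i
      have h1 : (σ • r i) ^ 2 = (r i) ^ 2 := by
        rw [← smul_pow', hr i, hσι]
      rcases sq_eq_sq_iff_eq_or_eq_neg.1 h1 with h2 | h2
      · exact Or.inl h2
      · exact Or.inr h2
    obtain ⟨σ, hσ⟩ := IsArithFrobAt.exists_of_isInvariant ℤ (K ≃ₐ[ℚ] K) v.asIdeal
    have hσ' : ∀ y : 𝓞 K, σ • y - y ^ Nat.card (ℤ ⧸ Ideal.span {((p : ℕ) : ℤ)}) ∈ v.asIdeal := by
      intro y
      have h1 := hσ y
      rw [← hover.over] at h1
      exact h1
    have hleg : ∀ i, σ • r i = ((jacobiSym (d i) p : ℤ) : 𝓞 K) * r i := by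
      intro i
      have h1 := hσ' (r i)
      rw [hcardz] at h1
      have hQ := p.2.eq_two_or_odd.resolve_left hp2
      have h3 : r i ^ (p : ℕ) = (d i : 𝓞 K) ^ ((p : ℕ) / 2) * r i := by
        rw [← hr i, ← pow_mul, ← pow_succ]
        congr 1
        omega
      have h4 : (d i : 𝓞 K) ^ ((p : ℕ) / 2) - ((jacobiSym (d i) p : ℤ) : 𝓞 K) ∈ v.asIdeal := by
        obtain ⟨c, hc'⟩ := hpow i
        have h5 := congrArg (fun z : ℤ => (z : 𝓞 K)) hc'
        push_cast at h5
        rw [h5]
        push_cast at hv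
        exact v.asIdeal.mul_mem_right _ hv
      have h5 : σ • r i - ((jacobiSym (d i) p : ℤ) : 𝓞 K) * r i ∈ v.asIdeal := by
        have h6 := v.asIdeal.add_mem h1 (v.asIdeal.mul_mem_right (r i) h4)
        rw [h3] at h6
        have e : σ • r i - (d i : 𝓞 K) ^ ((p : ℕ) / 2) * r i +
          ((d i : 𝓞 K) ^ ((p : ℕ) / 2) - ((jacobiSym (d i) p : ℤ) : 𝓞 K)) * r i =
          σ • r i - ((jacobiSym (d i) p : ℤ) : 𝓞 K) * r i := by ring
        rwa [e] at h6
      rcases hsign σ i with h6 | h6 <;> rcases hjac i with h7 | h7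
      · rw [h6, h7]; push_cast; ring
      · exfalso
        rw [h6, h7] at h5
        apply h2r i
        have e : r i - ((-1 : ℤ) : 𝓞 K) * r i = 2 * r i := by push_cast; ring
        rwa [e] at h5
      · exfalso
        rw [h6, h7] at h5
        apply h2r i
        have e : -(-r i - ((1 : ℤ) : 𝓞 K) * r i) = 2 * r i := by push_cast; ring
        rw [← e]
        exact v.asIdeal.neg_mem h5
      · rw [h6, h7]; push_cast; ring
    have hext : ∀ g : K ≃ₐ[ℚ] K, (∀ i, g • r i = r i) → g = 1 := by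
      intro g hg
      apply gal_inj hK
      intro i
      exact congrArg (fun z : 𝓞 K => (z : K)) (hg i)
    have hord : orderOf σ = fd d p := by
      unfold fd
      split_ifs with hall
      · rw [orderOf_eq_one_iff]
        apply hext
        intro i
        rw [hleg i, hall i]
        push_cast; ring
      · apply orderOf_eq_prime
        · apply hext
          intro i
          rw [sq, mul_smul, hleg i, smul_mul', hleg i, ← mul_assoc, hσι]
          have h3 : ((jacobiSym (d i) p : ℤ) : 𝓞 K) * ((jacobiSym (d i) p : ℤ) : 𝓞 K) = 1 := by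
            rcases hjac i with h | h <;> rw [h] <;> push_cast <;> ring
          rw [h3, one_mul]
        · intro h1
          apply hall
          intro i
          have h2 := hleg i
          rw [h1, one_smul] at h2
          rcases hjac i with h3 | h3
          · exact h3
          · exfalso
            rw [h3] at h2
            apply h2r i
            have e : 2 * r i = r i - ((-1 : ℤ) : 𝓞 K) * r i := by push_cast; ring
            rw [e, ← h2, sub_self]
            exact v.asIdeal.zero_mem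
    have h5 := split_abs (K ≃ₐ[ℚ] K) (Ideal.span {((p : ℕ) : ℤ)}) v.asIdeal (by
      intro g hg
      apply hext
      intro i
      rcases hsign g i with h6 | h6
      · exact h6
      · exfalso
        have h7 := hg (r i)
        rw [h6] at h7
        apply h2r i
        have e : 2 * r i = -(-r i - r i) := by ring
        rw [e]
        exact v.asIdeal.neg_mem h7) σ hσ'
    rw [hcardz, hord, hcard] at h5
    refine ⟨?_, h5.2⟩
    rw [Ideal.absNorm_apply, Submodule.cardQuot_apply]
    exact h5.1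
  constructor
  · intro v hv
    have h1 := (nm_eq v).2.2
    rw [hv] at h1
    have h2 := (key v (by simpa using h1)).1
    have h3 := (nm_eq v).1
    rw [hv] at h3
    have h4 : (p : ℕ) ^ deg v = (p : ℕ) ^ fd d p := by rw [← h2, ← h3]; rfl
    exact Nat.pow_right_injective p.2.two_le h4
  · rw [card_fiber]
    obtain ⟨P, hPm, hPl⟩ := Ideal.exists_maximal_ideal_liesOver_of_isIntegral
      (Ideal.span {((p : ℕ) : ℤ)}) (S := 𝓞 K)
    have h3 : (((p : ℕ) : ℤ)) ∈ P.under ℤ := by
      rw [← hPl.over]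
      exact Ideal.mem_span_singleton_self _
    rw [Ideal.mem_comap] at h3
    have hPb : P ≠ ⊥ := by
      intro hbot
      rw [hbot, Ideal.mem_bot] at h3
      have h4 : ((p : ℕ) : 𝓞 K) ≠ 0 := Nat.cast_ne_zero.2 p.2.ne_zero
      exact h4 (by simpa using h3)
    exact (key ⟨P, hPm.isPrime, hPb⟩ (by simpa using h3)).2

end Pool.Agent.Y73.QMQ1
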